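import Pool.Agent.Helper15.RA.GoalsH

/-!
# Project RA (MP_cc6379_al), packet HJ: P4 and P8 make `J` associative
-/

set_option autoImplicit false

open LaurentPolynomial

noncomputable section

namespace Pool.Agent.Helper61.RA

open Pool.Agent.Helper15.RA

section jmul

variable {W : Type} (h : W → W → W →₀ ℤ[T;T⁻¹]) (a : W → ℕ)

theorem gam_zero {x y z : W} (hz : h x y z = 0) : gam h a x y z = 0 := by
  unfold gam
  rw [hz]
  rfl

theorem jmul_add_left (p p' q : W →₀ ℤ) : jmul h a (p + p') q = jmul h a p q + jmul h a p' q := by
  classical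
  unfold jmul
  refine Finsupp.sum_add_index' (fun x => ?_) fun x m m' => ?_
  · simp
  · rw [← Finsupp.sum_add]
    refine Finsupp.sum_congr fun y _ => ?_
    rw [← Finset.sum_add_distrib]
    refine Finset.sum_congr rfl fun z _ => ?_
    rw [← Finsupp.single_add, add_mul, add_mul]

theorem jmul_add_right (p q q' : W →₀ ℤ) : jmul h a p (q + q') = jmul h a p q + jmul h a p q' := by
  classical
  unfold jmul
  rw [← Finsupp.sum_add]
  refine Finsupp.sum_congr fun x _ => ?_
  refine Finsupp.sum_add_index' (fun y => ?_) fun y n n' => ?_
  · simp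
  · rw [← Finset.sum_add_distrib]
    refine Finset.sum_congr rfl fun z _ => ?_
    rw [← Finsupp.single_add, mul_add, add_mul]

theorem jmul_zero_left (q : W →₀ ℤ) : jmul h a 0 q = 0 := Finsupp.sum_zero_index

theorem jmul_zero_right (p : W →₀ ℤ) : jmul h a p 0 = 0 := by
  unfold jmul
  simp

theorem jmul_sum_left {ι : Type*} (s : Finset ι) (f : ι → W →₀ ℤ) (q : W →₀ ℤ) :
    jmul h a (∑ i ∈ s, f i) q = ∑ i ∈ s, jmul h a (f i) q := by
  classical
  induction s using Finset.induction_on with
  | empty => exact jmul_zero_left h a q
  | insert i s hi ih => rw [Finset.sum_insert hi, Finset.sum_insert hi, jmul_add_left, ih]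

theorem jmul_sum_right {ι : Type*} (s : Finset ι) (f : ι → W →₀ ℤ) (p : W →₀ ℤ) :
    jmul h a p (∑ i ∈ s, f i) = ∑ i ∈ s, jmul h a p (f i) := by
  classical
  induction s using Finset.induction_on with
  | empty => exact jmul_zero_right h a p
  | insert i s hi ih => rw [Finset.sum_insert hi, Finset.sum_insert hi, jmul_add_right, ih]

theorem jmul_single (x y : W) (m n : ℤ) : jmul h a (Finsupp.single x m) (Finsupp.single y n) =
    ∑ z ∈ (h x y).support, Finsupp.single z (m * n * gam h a x y z) := by
  unfold jmul
  rw [Finsupp.sum_single_index, Finsupp.sum_single_index]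
  · simp
  · simp

theorem jmul_single_apply (x y u : W) (m n : ℤ) :
    jmul h a (Finsupp.single x m) (Finsupp.single y n) u = m * n * gam h a x y u := by
  classical
  rw [jmul_single, Finsupp.finsetSum_apply]
  by_cases hu : u ∈ (h x y).support
  · rw [Finset.sum_eq_single u]
    · simp
    · intro z _ hz
      simp [Finsupp.single_apply, hz]
    · exact fun h => absurd hu h
  · rw [gam_zero h a (Finsupp.notMem_support_iff.1 hu), mul_zero]
    refine Finset.sum_eq_zero fun z hz => ?_
    have : z ≠ u := fun h => hu (h ▸ hz)
    simp [Finsupp.single_apply, this]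

end jmul

theorem coeff_sum' {W : Type} (p : W →₀ ℤ[T;T⁻¹]) (g : W → ℤ[T;T⁻¹]) (n : ℤ) :
    (p.sum fun z q => q * g z).coeff n = ∑ z ∈ p.support, (p z * g z).coeff n := by
  classical
  unfold Finsupp.sum
  induction p.support using Finset.induction_on with
  | empty => rfl
  | insert i s hi ih =>
    rw [Finset.sum_insert hi, Finset.sum_insert hi, ← ih, AddMonoidAlgebra.coeff_add,
      Finsupp.add_apply]

theorem h_hj (h3 : H_3) : H_J := by
  intro I W H _ _ _ M cs L hL D h a hG
  classical
  obtain ⟨⟨b, hb, -, -⟩, -⟩ := h3 I W H M cs L hL D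
  have hrep : ∀ x y, b.repr (D.c x * D.c y) = h x y := by
    intro x y
    rw [hG.isH x y, Finsupp.sum, map_sum]
    have h4 : ∀ z, b.repr (h x y z • D.c z) = Finsupp.single z (h x y z) := by
      intro z
      rw [map_smul, ← hb z, b.repr_self, Finsupp.smul_single, smul_eq_mul, mul_one]
    simp only [h4]
    exact Finsupp.sum_single (h x y)
  have hA : ∀ x y w u, ((h x y).sum fun z p => p * h z w u) = (h y w).sum fun z p => p * h x z u := by
    intro x y w u
    have h5 : b.repr (D.c x * D.c y * D.c w) u = (h x y).sum fun z p => p * h z w u := by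
      rw [hG.isH x y, Finsupp.sum, Finset.sum_mul, map_sum, Finsupp.finsetSum_apply, Finsupp.sum]
      refine Finset.sum_congr rfl fun z _ => ?_
      rw [smul_mul_assoc, map_smul, hrep, Finsupp.smul_apply, smul_eq_mul]
    have h6 : b.repr (D.c x * (D.c y * D.c w)) u = (h y w).sum fun z p => p * h x z u := by
      rw [hG.isH y w, Finsupp.sum, Finset.mul_sum, map_sum, Finsupp.finsetSum_apply, Finsupp.sum]
      refine Finset.sum_congr rfl fun z _ => ?_
      rw [mul_smul_comm, map_smul, hrep, Finsupp.smul_apply, smul_eq_mul]
    rw [← h5, ← h6, mul_assoc]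
  have hdeg : ∀ x y z, DegLE (a z) (h x y z) := fun x y z => (hG.isA z).1 x y
  have hB : ∀ x y w u, ∑ z ∈ (h x y).support, gam h a x y z * gam h a z w u =
      ∑ z ∈ (h y w).support, gam h a y w z * gam h a x z u := by
    intro x y w u
    have h7 := congrArg (fun p : ℤ[T;T⁻¹] => p.coeff ((a u : ℤ) + a u)) (hA x y w u)
    simp only [coeff_sum'] at h7
    rw [Finset.sum_congr rfl, h7]
    · refine Finset.sum_congr rfl fun z _ => ?_
      by_cases hz : h x z u = 0
      · rw [hz, mul_zero, gam_zero h a hz, mul_zero]
        rfl
      · have h8 := (hG.p4 x z u hz).2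
        rw [coeff_mul_top ((hdeg y w z).mono (by exact_mod_cast h8)) (hdeg x z u)]
        by_cases hg : gam h a x z u = 0
        · rw [hg, mul_zero]
          have : (h x z u).coeff (a u : ℤ) = 0 := hg
          rw [this, mul_zero]
        · have h9 := (hG.p8 x z u hg).2
          unfold gam
          rw [h9]
    · intro z _
      by_cases hz : h z w u = 0
      · rw [hz, mul_zero, gam_zero h a hz, mul_zero]
        rfl
      · have h8 := (hG.p4 z w u hz).1
        rw [coeff_mul_top ((hdeg x y z).mono (by exact_mod_cast h8)) (hdeg z w u)]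
        by_cases hg : gam h a z w u = 0
        · rw [hg, mul_zero]
          have : (h z w u).coeff (a u : ℤ) = 0 := hg
          rw [this, mul_zero]
        · have h9 := (hG.p8 z w u hg).1
          unfold gam
          rw [h9]
  intro p q r
  induction p using Finsupp.induction_linear with
  | zero => rw [jmul_zero_left, jmul_zero_left, jmul_zero_left]
  | add p p' hp hp' => rw [jmul_add_left, jmul_add_left, jmul_add_left, hp, hp']
  | single x m =>
    induction q using Finsupp.induction_linear with
    | zero => rw [jmul_zero_right, jmul_zero_left, jmul_zero_right]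
    | add q q' hq hq' => rw [jmul_add_right, jmul_add_left, jmul_add_left, jmul_add_right, hq, hq']
    | single y n =>
      induction r using Finsupp.induction_linear with
      | zero => rw [jmul_zero_right, jmul_zero_right, jmul_zero_right]
      | add r r' hr hr' => rw [jmul_add_right, jmul_add_right, jmul_add_right, hr, hr']
      | single w k =>
        ext u
        rw [jmul_single h a x y, jmul_single h a y w, jmul_sum_left, jmul_sum_right,
          Finsupp.finsetSum_apply, Finsupp.finsetSum_apply]
        simp only [jmul_single_apply]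
        have h10 : ∀ z, m * n * gam h a x y z * k * gam h a z w u =
            m * n * k * (gam h a x y z * gam h a z w u) := fun z => by ring
        have h11 : ∀ z, m * (n * k * gam h a y w z) * gam h a x z u =
            m * n * k * (gam h a y w z * gam h a x z u) := fun z => by ring
        simp only [h10, h11, ← Finset.mul_sum]
        rw [hB]

end Pool.Agent.Helper61.RA
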